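import Pool.Agent.P8H48.FR.Stm

/-! # Project FR, package COP -/

set_option autoImplicit false

namespace Pool.Agent.P8H40.FR

open Pool.Agent.P8H48.FR Polynomial

theorem cop : S_COP := by
  intro p hp K _ g hg
  have hp0 : p ≠ 0 := hp.out.ne_zero
  -- g = X ^ a * g₁
  obtain ⟨g₁, hgg, hg1⟩ := Polynomial.exists_eq_pow_rootMultiplicity_mul_and_not_dvd g hg 0
  rw [C_0, sub_zero] at hgg hg1
  set a := rootMultiplicity 0 g
  have hg10 : g₁ ≠ 0 := fun h => hg1 (h ▸ dvd_zero _)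
  have hX1 : IsCoprime (X : K[X]) g₁ := (Polynomial.irreducible_X.coprime_iff_not_dvd).mpr hg1
  let c : K := g₁.leadingCoeff
  have hc : c ≠ 0 := leadingCoeff_ne_zero.mpr hg10
  let g₂ : K[X] := C c⁻¹ * g₁
  have hg2m : g₂.Monic := by
    rw [Monic, leadingCoeff_mul, leadingCoeff_C]
    exact inv_mul_cancel₀ hc
  have h12 : g₁ = C c * g₂ := by
    rw [← mul_assoc, ← C_mul, mul_inv_cancel₀ hc, C_1, one_mul]
  have hX2 : IsCoprime (X : K[X]) g₂ := by
    rw [h12] at hX1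
    exact IsCoprime.of_mul_right_right hX1
  let m : ℕ := g.natDegree + 1
  have hm0 : m ≠ 0 := by omega
  have hmm : (X ^ m + 1 : K[X]).Monic := by
    have := monic_X_pow_add_C (1 : K) hm0
    rwa [C_1] at this
  have hmd : (X ^ m + 1 : K[X]).natDegree = m := by
    have := natDegree_X_pow_add_C (n := m) (r := (1 : K))
    rwa [C_1] at this
  refine ⟨g₂ * (X ^ m + 1), hg2m.mul hmm, ?_, ?_⟩
  · rw [hg2m.natDegree_mul hmm, hmd]
    omega
  · have hA : IsCoprime g₂ (X + (g₂ * (X ^ m + 1)) ^ p) := by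
      obtain ⟨q, rfl⟩ : ∃ q, p = q + 1 := ⟨p - 1, by omega⟩
      have h1 : (X : K[X]) + (g₂ * (X ^ m + 1)) ^ (q + 1) = X + g₂ * ((X ^ m + 1) * (g₂ * (X ^ m + 1)) ^ q) := by ring
      rw [h1]
      exact IsCoprime.add_mul_left_right hX2.symm _
    have hB : IsCoprime (X : K[X]) (X + (g₂ * (X ^ m + 1)) ^ p) := by
      have h1 : IsCoprime (X : K[X]) (X ^ m + 1) := by
        obtain ⟨q, hq⟩ : ∃ q, m = q + 1 := ⟨m - 1, by omega⟩
        refine ⟨-X ^ q, 1, ?_⟩
        rw [hq]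
        ring
      have h2 : IsCoprime (X : K[X]) ((g₂ * (X ^ m + 1)) ^ p) := (hX2.mul_right h1).pow_right
      have h3 : (X : K[X]) + (g₂ * (X ^ m + 1)) ^ p = (g₂ * (X ^ m + 1)) ^ p + X * 1 := by ring
      rw [h3]
      exact IsCoprime.add_mul_left_right h2 _
    rw [hgg, h12]
    refine IsCoprime.mul_left hB.pow_left ?_
    refine IsCoprime.mul_left ?_ hA
    exact ⟨C c⁻¹, 0, by rw [← C_mul, inv_mul_cancel₀ hc, C_1, zero_mul, add_zero]⟩

end Pool.Agent.P8H40.FR
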