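import Pool.Agent.P8H48.FR.Stm

/-! # Project FR, package IND -/

set_option autoImplicit false

namespace Pool.Agent.P8H40.FR

open Pool.Agent.P8H48.FR Polynomial

/-- localisation and ring isomorphisms -/
lemma away_equiv {A B : Type} [CommRing A] [CommRing B] (e : A ≃+* B) (b : B) :
    ∃ e' : Localization.Away b ≃+* Localization.Away (e.symm b),
      ∀ a : A, e' (algebraMap B _ (e a)) = algebraMap A _ a := by
  have H : (Submonoid.powers (e.symm b)).map e.toMonoidHom = Submonoid.powers b := by
    rw [Submonoid.map_powers]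
    congr 1
    exact e.apply_symm_apply b
  let f := IsLocalization.ringEquivOfRingEquiv (M := Submonoid.powers (e.symm b)) (T := Submonoid.powers b)
    (Localization.Away (e.symm b)) (Localization.Away b) e H
  refine ⟨f.symm, fun a => ?_⟩
  rw [RingEquiv.symm_apply_eq]
  exact (IsLocalization.ringEquivOfRingEquiv_eq H a).symm

theorem ind : S_IND := by
  intro hcomp hpoly htrk hcop hspr hloc p hp k _ _ d
  induction d with
  | zero =>
    intro g hg
    have hgu : IsUnit g := by
      have h1 : IsUnit (MvPolynomial.isEmptyAlgEquiv k (Fin 0) g) := by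
        rw [isUnit_iff_ne_zero, Ne, EmbeddingLike.map_eq_zero_iff]
        exact hg
      exact (MulEquiv.isUnit_map (MvPolynomial.isEmptyAlgEquiv k (Fin 0))).mp h1
    refine ⟨1, one_ne_zero, hgu.dvd, Algebra.ofId _ _ |>.restrictScalars k, ?_⟩
    exact hcomp.2 _ _ (IsLocalization.atOne (MvPolynomial (Fin 0) k) (Localization.Away (1 : MvPolynomial (Fin 0) k))).toRingEquiv
  | succ d ih =>
    intro g hg
    let e := MvPolynomial.finSuccEquiv k d
    have hg' : e g ≠ 0 := by
      rw [Ne, EmbeddingLike.map_eq_zero_iff]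
      exact hg
    obtain ⟨b, hb, hB⟩ := hspr hcop p (MvPolynomial (Fin d) k) (e g) hg'
    obtain ⟨h', hh', hbh, ψ, hψ⟩ := ih b hb
    let ι : MvPolynomial (Fin d) k →+* Localization.Away h' := algebraMap _ _
    have hinj : Function.Injective ι := IsLocalization.injective _ (powers_le_nonZeroDivisors_of_noZeroDivisors hh')
    have hιb : IsUnit (ι b) := isUnit_of_dvd_unit (map_dvd ι hbh) (IsLocalization.Away.algebraMap_isUnit h')
    have : Nontrivial (Localization.Away h') := hinj.nontrivial
    have : CharP (Localization.Away h') p := charP_of_injective_ringHom hinj p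
    obtain ⟨w, hwm, hwd, hwc⟩ := hB _ ι hιb
    obtain ⟨φ, hφ, hφC⟩ := htrk p _ ((e g).map ι) w hwm hwd hwc
    obtain ⟨e', he'⟩ := hloc _ h' (e g)
    obtain ⟨e'', he''⟩ := away_equiv e.toRingEquiv (C h' * e g)
    refine ⟨e.toRingEquiv.symm (C h' * e g), ?_, ?_, ?_⟩
    · rw [Ne, EmbeddingLike.map_eq_zero_iff]
      exact mul_ne_zero (C_ne_zero.mpr hh') hg'
    · rw [map_mul]
      have h0 : e.toRingEquiv.symm (e g) = g := e.symm_apply_apply g
      rw [h0]
      exact dvd_mul_left _ _
    · have F1 := hcomp.2 _ _ e.toRingEquiv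
      have F2 := hpoly _ _ ψ.toRingHom hψ
      have F3 := hcomp.2 _ _ e'
      have F4 := hcomp.2 _ _ e''
      have F5 := hcomp.1 _ _ _ _ _ F1 F2
      have F6 := hcomp.1 _ _ _ _ _ F5 hφ
      have F7 := hcomp.1 _ _ _ _ _ F6 F3
      have F8 := hcomp.1 _ _ _ _ _ F7 F4
      refine ⟨{ toRingHom := _, commutes' := ?_ }, F8⟩
      intro c
      show e'' (e' (φ ((e (algebraMap k _ c)).map ψ.toRingHom))) = _
      have h1 : e (algebraMap k _ c) = C (MvPolynomial.C c) := e.commutes c
      have h2 : ψ.toRingHom (MvPolynomial.C c) = ι (MvPolynomial.C c) := ψ.commutes c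
      rw [h1, map_C, h2, hφC, ← map_C, he', ← h1]
      exact he'' (algebraMap k _ c)

end Pool.Agent.P8H40.FR
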