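import Pool.Agent.P8H48.FR.Stm

/-! # Project FR, package LOC -/

set_option autoImplicit false

namespace Pool.Agent.P8H40.FR

open Pool.Agent.P8H48.FR Polynomial

theorem loc : S_LOC := by
  intro B _ h g
  let ι : B →+* Localization.Away h := algebraMap B (Localization.Away h)
  let α : B[X] →+* Localization.Away (C h * g) := algebraMap _ _
  let β : (Localization.Away h)[X] →+* Localization.Away (g.map ι) := algebraMap _ _
  have hu : IsUnit (α (C h * g)) := IsLocalization.Away.algebraMap_isUnit _
  rw [map_mul] at hu
  have hu1 : IsUnit ((α.comp C) h) := (isUnit_of_mul_isUnit_left hu : IsUnit (α (C h)))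
  have hu2 : IsUnit (α g) := isUnit_of_mul_isUnit_right hu
  let F₀ : Localization.Away h →+* Localization.Away (C h * g) := IsLocalization.Away.lift h hu1
  have hF₀ : ∀ b, F₀ (ι b) = α (C b) := fun b => IsLocalization.Away.lift_eq h hu1 b
  let F₁ : (Localization.Away h)[X] →+* Localization.Away (C h * g) := eval₂RingHom F₀ (α X)
  have hF₁ : ∀ q : B[X], F₁ (q.map ι) = α q := by
    intro q
    show eval₂ F₀ (α X) (q.map ι) = α q
    rw [eval₂_map]
    have h2 : F₀.comp ι = α.comp C := RingHom.ext hF₀
    rw [h2, ← hom_eval₂, eval₂_C_X]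
  have hu3 : IsUnit (F₁ (g.map ι)) := by rw [hF₁]; exact hu2
  let F : Localization.Away (g.map ι) →+* Localization.Away (C h * g) := IsLocalization.Away.lift (g.map ι) hu3
  have hF : ∀ r, F (β r) = F₁ r := fun r => IsLocalization.Away.lift_eq (g.map ι) hu3 r
  have hu4 : IsUnit ((β.comp (mapRingHom ι)) (C h * g)) := by
    rw [map_mul]
    refine IsUnit.mul ?_ (IsLocalization.Away.algebraMap_isUnit (S := Localization.Away (g.map ι)) (g.map ι))
    show IsUnit (β ((C h).map ι))
    rw [map_C]
    exact ((IsLocalization.Away.algebraMap_isUnit (S := Localization.Away h) h).map C).map β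
  let G : Localization.Away (C h * g) →+* Localization.Away (g.map ι) := IsLocalization.Away.lift (C h * g) hu4
  have hG : ∀ q, G (α q) = β (q.map ι) := fun q => IsLocalization.Away.lift_eq (C h * g) hu4 q
  have e1 : F.comp G = RingHom.id _ := by
    apply IsLocalization.ringHom_ext (Submonoid.powers (C h * g))
    apply RingHom.ext
    intro q
    show F (G (α q)) = α q
    rw [hG, hF, hF₁]
  have e2 : G.comp F = RingHom.id _ := by
    apply IsLocalization.ringHom_ext (Submonoid.powers (g.map ι))
    apply Polynomial.ringHom_ext'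
    · apply IsLocalization.ringHom_ext (Submonoid.powers h)
      apply RingHom.ext
      intro b
      show G (F (β (C (ι b)))) = β (C (ι b))
      rw [← map_C, hF, hF₁, hG]
    · show G (F (β X)) = β X
      have : (X : (Localization.Away h)[X]) = (X : B[X]).map ι := by rw [map_X]
      rw [this, hF, hF₁, hG]
  refine ⟨RingEquiv.ofRingHom F G e1 e2, ?_⟩
  intro q
  show F (β (q.map ι)) = α q
  rw [hF, hF₁]

end Pool.Agent.P8H40.FR
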