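import Pool.Agent.P8H48.FR.Stm

/-! # Project FR, package SPR -/

set_option autoImplicit false

namespace Pool.Agent.P8H40.FR

open Pool.Agent.P8H48.FR Polynomial

/-- clearing denominators -/
lemma clear {B : Type} [CommRing B] [IsDomain B] (q : (FractionRing B)[X]) :
    ∃ (b : B) (Q : B[X]), b ≠ 0 ∧ Q.map (algebraMap B (FractionRing B)) = C (algebraMap B (FractionRing B) b) * q := by
  obtain ⟨b, hbm, hb⟩ := IsLocalization.integerNormalization_spec (nonZeroDivisors B) q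
  refine ⟨b, _, nonZeroDivisors.ne_zero hbm, hb.trans ?_⟩
  ext n
  rw [coeff_C_mul, coeff_smul, Algebra.smul_def]

theorem spr : S_SPR := by
  intro hcop p hp B _ _ g hg
  let K := FractionRing B
  let κ : B →+* K := algebraMap B K
  have hκ : Function.Injective κ := IsFractionRing.injective B K
  have hgK : g.map κ ≠ 0 := by
    rw [Ne, Polynomial.map_eq_zero_iff hκ]
    exact hg
  obtain ⟨w, hwm, hwd, u, v, huv⟩ := hcop p K (g.map κ) hgK
  rw [natDegree_map_eq_of_injective hκ] at hwd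
  obtain ⟨b₁, W, hb₁, hW⟩ := clear w
  obtain ⟨b₂, U, hb₂, hU⟩ := clear u
  obtain ⟨b₃, V, hb₃, hV⟩ := clear v
  change W.map κ = C (κ b₁) * w at hW
  change U.map κ = C (κ b₂) * u at hU
  change V.map κ = C (κ b₃) * v at hV
  -- the identity over B
  have hid : C (b₁ ^ p * b₃) * U * g + V * C b₂ * (C (b₁ ^ p) * X + W ^ p) = C (b₁ ^ p * b₂ * b₃) := by
    apply Polynomial.map_injective κ hκ
    simp only [Polynomial.map_add, Polynomial.map_mul, Polynomial.map_pow, map_C, map_X, hW, hU, hV, map_mul, map_pow, C_mul, C_pow]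
    linear_combination (C (κ b₁) ^ p * C (κ b₂) * C (κ b₃)) * huv
  have hWl : W.leadingCoeff = b₁ := by
    apply hκ
    have h1 : (W.map κ).leadingCoeff = κ W.leadingCoeff := leadingCoeff_map_of_injective hκ _
    rw [← h1, hW, leadingCoeff_mul, leadingCoeff_C, hwm.leadingCoeff, mul_one]
  have hWd : W.natDegree = w.natDegree := by
    rw [← natDegree_map_eq_of_injective hκ, hW, natDegree_C_mul]
    exact fun h => hb₁ (hκ (h.trans (map_zero κ).symm))
  refine ⟨b₁ * b₂ * b₃, mul_ne_zero (mul_ne_zero hb₁ hb₂) hb₃, ?_⟩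
  intro B' _ _ ι hu
  rw [map_mul, map_mul] at hu
  obtain ⟨c₃, hc₃⟩ : ∃ c, c * ι b₃ = 1 := (isUnit_of_mul_isUnit_right hu).exists_left_inv
  obtain ⟨c₂, hc₂⟩ : ∃ c, c * ι b₂ = 1 := (isUnit_of_mul_isUnit_right (isUnit_of_mul_isUnit_left hu)).exists_left_inv
  have hu1 : IsUnit (ι b₁) := isUnit_of_mul_isUnit_left (isUnit_of_mul_isUnit_left hu)
  obtain ⟨c₁, hc₁⟩ : ∃ c, c * ι b₁ = 1 := hu1.exists_left_inv
  have hWι : (W.map ι).natDegree = W.natDegree := by
    apply natDegree_map_of_leadingCoeff_ne_zero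
    rw [hWl]
    exact hu1.ne_zero
  have hWιl : (W.map ι).leadingCoeff = ι b₁ := by
    rw [leadingCoeff, hWι, coeff_map]
    show ι W.leadingCoeff = _
    rw [hWl]
  have hmon : (C c₁ * W.map ι).Monic := by
    apply monic_C_mul_of_mul_leadingCoeff_eq_one
    rw [hWιl]
    exact hc₁
  have hdeg : (C c₁ * W.map ι).natDegree = W.natDegree := by
    rw [natDegree_C_mul_of_mul_ne_zero, hWι]
    rw [hWιl, hc₁]
    exact one_ne_zero
  refine ⟨C c₁ * W.map ι, hmon, ?_, ?_⟩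
  · rw [hdeg, hWd]
    exact lt_of_le_of_lt natDegree_map_le hwd
  · have h1 := congrArg (Polynomial.map ι) hid
    simp only [Polynomial.map_add, Polynomial.map_mul, Polynomial.map_pow, map_C, map_X, map_mul, map_pow, C_mul, C_pow] at h1
    have k₁ : C c₁ * C (ι b₁) = (1 : B'[X]) := by rw [← C_mul, hc₁, C_1]
    have k₂ : C c₂ * C (ι b₂) = (1 : B'[X]) := by rw [← C_mul, hc₂, C_1]
    have k₃ : C c₃ * C (ι b₃) = (1 : B'[X]) := by rw [← C_mul, hc₃, C_1]
    have k₁p : C c₁ ^ p * C (ι b₁) ^ p = (1 : B'[X]) := by rw [← mul_pow, k₁, one_pow]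
    refine ⟨C c₂ * U.map ι, C c₃ * V.map ι, ?_⟩
    have h2 := congrArg (fun z => C c₁ ^ p * C c₂ * C c₃ * z) h1
    have h3 : C c₁ ^ p * C c₂ * C c₃ * (C (ι b₁) ^ p * C (ι b₂) * C (ι b₃)) = (1 : B'[X]) := by
      calc C c₁ ^ p * C c₂ * C c₃ * (C (ι b₁) ^ p * C (ι b₂) * C (ι b₃)) =
          (C c₁ ^ p * C (ι b₁) ^ p) * (C c₂ * C (ι b₂)) * (C c₃ * C (ι b₃)) := by ring
        _ = 1 := by rw [k₁p, k₂, k₃]; ring
    simp only [h3] at h2
    rw [← h2]
    calc C c₂ * U.map ι * g.map ι + C c₃ * V.map ι * (X + (C c₁ * W.map ι) ^ p)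
        = 1 * 1 * (C c₂ * U.map ι * g.map ι) + 1 * (C c₃ * V.map ι * (1 * X + C c₁ ^ p * W.map ι ^ p)) := by ring
      _ = (C c₁ ^ p * C (ι b₁) ^ p) * (C c₃ * C (ι b₃)) * (C c₂ * U.map ι * g.map ι) +
          (C c₂ * C (ι b₂)) * (C c₃ * V.map ι * ((C c₁ ^ p * C (ι b₁) ^ p) * X + C c₁ ^ p * W.map ι ^ p)) := by
            rw [k₁p, k₃, k₂]
      _ = _ := by ring

end Pool.Agent.P8H40.FR
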