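import Pool.Agent.P8H48.FR.Stm

/-! # Project FR, package TRK -/

set_option autoImplicit false

namespace Pool.Agent.P8H40.FR

open Pool.Agent.P8H48.FR Polynomial

/-- an algebra given by one monic equation with derivative one is etale -/
lemma etale_adjoinRoot {A : Type} [CommRing A] (Φ : A[X]) (hm : Φ.Monic) (hd : derivative Φ = 1) :
    Algebra.Etale A (AdjoinRoot Φ) := by
  let P : StandardEtalePair A := ⟨Φ, hm, 1, ⟨1, 0, 1, by rw [hd]; simp⟩⟩
  have hmap : P.HasMap (AdjoinRoot.root Φ) := by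
    refine ⟨?_, ?_⟩
    · show aeval (AdjoinRoot.root Φ) Φ = 0
      rw [AdjoinRoot.aeval_eq, AdjoinRoot.mk_self]
    · show IsUnit (aeval (AdjoinRoot.root Φ) (1 : A[X]))
      rw [map_one]
      exact isUnit_one
  let F : P.Ring →ₐ[A] AdjoinRoot Φ := P.lift (AdjoinRoot.root Φ) hmap
  let G : AdjoinRoot Φ →ₐ[A] P.Ring := AdjoinRoot.liftAlgHom Φ (Algebra.ofId A P.Ring) P.X P.hasMap_X.1
  have h1 : F.comp G = AlgHom.id A (AdjoinRoot Φ) := by
    apply AdjoinRoot.algHom_ext
    show F (G (AdjoinRoot.root Φ)) = AdjoinRoot.root Φ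
    have h2 : G (AdjoinRoot.root Φ) = P.X := AdjoinRoot.liftAlgHom_root ..
    rw [h2]
    exact P.lift_X _ hmap
  have h3 : G.comp F = AlgHom.id A P.Ring := by
    apply P.hom_ext
    show G (F P.X) = P.X
    have h2 : F P.X = AdjoinRoot.root Φ := P.lift_X _ hmap
    rw [h2]
    exact AdjoinRoot.liftAlgHom_root ..
  exact Algebra.Etale.of_equiv (AlgEquiv.ofAlgHom F G h1 h3)

/-- the equation -/
noncomputable def Phi {B : Type} [CommRing B] (p : ℕ) (g w : B[X]) : B[X][X] :=
  (w.map C) ^ p + (X - C X * (g.map C) ^ p)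

lemma Phi_monic {B : Type} [CommRing B] {p : ℕ} (hp : 2 ≤ p) {g w : B[X]} (hw : w.Monic) (hg : g.natDegree < w.natDegree) :
    (Phi p g w).Monic := by
  have hB : Nontrivial B := by
    by_contra h
    rw [not_nontrivial_iff_subsingleton] at h
    have : w = 0 := Subsingleton.elim _ _
    rw [this, natDegree_zero] at hg
    omega
  have hwm : (w.map (C : B →+* B[X])).Monic := hw.map C
  have hdw : (w.map (C : B →+* B[X])).natDegree = w.natDegree := hw.natDegree_map C
  unfold Phi
  refine Monic.add_of_left (hwm.pow p) ?_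
  rw [degree_eq_natDegree (hwm.pow p).ne_zero, hwm.natDegree_pow, hdw]
  refine lt_of_le_of_lt (degree_sub_le _ _) (max_lt ?_ ?_)
  · refine lt_of_le_of_lt degree_X_le ?_
    have : 1 < p * w.natDegree := by nlinarith
    exact_mod_cast this
  · refine lt_of_le_of_lt degree_le_natDegree ?_
    have h1 : (C (X : B[X]) * (g.map (C : B →+* B[X])) ^ p).natDegree ≤ p * g.natDegree := by
      refine (natDegree_C_mul_le _ _).trans ?_
      refine (natDegree_pow_le).trans ?_
      exact Nat.mul_le_mul_left p (natDegree_map_le)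
    have h2 : p * g.natDegree < p * w.natDegree := Nat.mul_lt_mul_of_pos_left hg (by omega)
    exact_mod_cast lt_of_le_of_lt h1 h2

lemma Phi_deriv {B : Type} [CommRing B] {p : ℕ} [CharP B p] (g w : B[X]) : derivative (Phi p g w) = 1 := by
  unfold Phi
  have h : ((p : ℕ) : B[X]) = 0 := CharP.cast_eq_zero B[X] p
  rw [derivative_add, derivative_sub, derivative_mul, derivative_pow, derivative_pow, derivative_X, derivative_C, h]
  simp

/-- transport along a ring isomorphism -/
lemma ffe_of_equiv {A S : Type} [CommRing A] [CommRing S] (Φ : A[X]) (hm : Φ.Monic) (hd : derivative Φ = 1)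
    (φ : A →+* S) (e : AdjoinRoot Φ ≃+* S) (he : ∀ a, e (AdjoinRoot.of Φ a) = φ a) : FFE φ := by
  letI := φ.toAlgebra
  have hfin := hm.finite_adjoinRoot
  have hfree := hm.free_adjoinRoot
  have het := etale_adjoinRoot Φ hm hd
  let e' : AdjoinRoot Φ ≃ₐ[A] S := AlgEquiv.ofRingEquiv (f := e) (fun a => he a)
  exact ⟨Module.Finite.equiv e'.toLinearEquiv, Module.Free.of_equiv e'.toLinearEquiv, Algebra.Etale.of_equiv e'⟩

theorem trk : S_TRK := by
  intro p hp B _ _ g w hw hg hcop
  have hp2 : 2 ≤ p := hp.out.two_le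
  have hp0 : p ≠ 0 := by omega
  have hm := Phi_monic hp2 hw hg
  let S := Localization.Away g
  let α : B[X] →+* S := algebraMap B[X] S
  obtain ⟨γ, hγ⟩ : ∃ γ : S, α g * γ = 1 := by
    obtain ⟨u, hu⟩ := IsLocalization.Away.algebraMap_isUnit (S := S) g
    exact ⟨(u⁻¹ : Sˣ), by rw [show α g = u from hu.symm, Units.mul_inv]⟩
  let fv : S := α (X + w ^ p) * γ ^ p
  let φ : B[X] →+* S := eval₂RingHom (α.comp C) fv
  have hφC : ∀ b, φ (C b) = α (C b) := fun b => eval₂_C _ _
  have hφX : φ X = fv := eval₂_X _ _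
  refine ⟨φ, ?_, hφC⟩
  -- the map in the other direction
  let h : B[X] →+* AdjoinRoot (Phi p g w) := (AdjoinRoot.mk (Phi p g w)).comp (mapRingHom C)
  have hh : ∀ q, h q = AdjoinRoot.mk (Phi p g w) (q.map C) := fun q => rfl
  let T : AdjoinRoot (Phi p g w) := AdjoinRoot.of (Phi p g w) X
  have hrel : h X + (h w) ^ p = T * (h g) ^ p := by
    have h1 : AdjoinRoot.mk (Phi p g w) (Phi p g w) = 0 := AdjoinRoot.mk_self
    have h2 : AdjoinRoot.mk (Phi p g w) (Phi p g w) = (h w) ^ p + (h X - T * (h g) ^ p) := by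
      show AdjoinRoot.mk (Phi p g w) ((w.map C) ^ p + (X - C X * (g.map C) ^ p)) = _
      rw [map_add, map_sub, map_mul, map_pow, map_pow, hh, hh, hh, map_X]
      rfl
    rw [h2] at h1
    linear_combination h1
  have hunit : IsUnit (h g) := by
    obtain ⟨u, v, huv⟩ := hcop
    have h1 := congrArg h huv
    rw [map_add, map_mul, map_mul, map_add, map_pow, hrel, map_one] at h1
    refine IsUnit.of_mul_eq_one (h u + h v * T * (h g) ^ (p - 1)) ?_
    obtain ⟨q, rfl⟩ : ∃ q, p = q + 1 := ⟨p - 1, by omega⟩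
    rw [Nat.add_sub_cancel]
    linear_combination h1
  let G₀ : S →+* AdjoinRoot (Phi p g w) := IsLocalization.Away.lift g hunit
  have hG₀ : ∀ q, G₀ (α q) = h q := fun q => IsLocalization.Away.lift_eq g hunit q
  have hG₀fv : G₀ fv = T := by
    show G₀ (α (X + w ^ p) * γ ^ p) = T
    rw [map_mul, hG₀, map_add, map_pow, hrel, map_pow]
    have h1 : h g * G₀ γ = 1 := by rw [← hG₀, ← map_mul, hγ, map_one]
    calc T * h g ^ p * G₀ γ ^ p = T * (h g * G₀ γ) ^ p := by rw [mul_pow]; ring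
      _ = T := by rw [h1, one_pow, mul_one]
  have hroot0 : eval₂ (φ : B[X] →+* S) (α X) (Phi p g w) = 0 := by
    have h1 : ∀ q : B[X], eval₂ φ (α X) (q.map C) = α q := by
      intro q
      rw [eval₂_map]
      have h2 : φ.comp C = α.comp C := RingHom.ext hφC
      rw [h2, ← hom_eval₂, eval₂_C_X]
    show eval₂ φ (α X) ((w.map C) ^ p + (X - C X * (g.map C) ^ p)) = 0
    rw [eval₂_add, eval₂_sub, eval₂_mul, eval₂_pow, eval₂_pow, eval₂_X, eval₂_C, h1, h1, hφX]
    show α w ^ p + (α X - α (X + w ^ p) * γ ^ p * α g ^ p) = 0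
    have h4 : γ ^ p * α g ^ p = 1 := by rw [← mul_pow, mul_comm, hγ, one_pow]
    rw [mul_assoc, h4, map_add, map_pow]
    ring
  let Fh : AdjoinRoot (Phi p g w) →+* S := AdjoinRoot.lift φ (α X) hroot0
  have hFroot : Fh (AdjoinRoot.root (Phi p g w)) = α X := AdjoinRoot.lift_root hroot0
  have hFof : ∀ a, Fh (AdjoinRoot.of (Phi p g w) a) = φ a := fun a => AdjoinRoot.lift_of hroot0
  have hGφ : ∀ a, G₀ (φ a) = AdjoinRoot.of (Phi p g w) a := by
    intro a
    have h1 : G₀.comp φ = AdjoinRoot.of (Phi p g w) := by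
      apply Polynomial.ringHom_ext
      · intro b
        show G₀ (φ (C b)) = _
        rw [hφC, hG₀, hh, map_C]
        rfl
      · show G₀ (φ X) = _
        rw [hφX, hG₀fv]
    exact congrArg (fun f : B[X] →+* AdjoinRoot (Phi p g w) => f a) h1
  have e1 : Fh.comp G₀ = RingHom.id S := by
    apply IsLocalization.ringHom_ext (Submonoid.powers g)
    apply Polynomial.ringHom_ext
    · intro b
      show Fh (G₀ (α (C b))) = α (C b)
      rw [hG₀, hh, map_C]
      have h1 : AdjoinRoot.mk (Phi p g w) (C (C b)) = AdjoinRoot.of (Phi p g w) (C b) := rfl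
      rw [h1, hFof]
      exact hφC b
    · show Fh (G₀ (α X)) = α X
      rw [hG₀, hh, map_X]
      exact hFroot
  have e2 : G₀.comp Fh = RingHom.id (AdjoinRoot (Phi p g w)) := by
    apply AdjoinRoot.ringHom_ext
    · apply RingHom.ext
      intro a
      show G₀ (Fh (AdjoinRoot.of (Phi p g w) a)) = AdjoinRoot.of (Phi p g w) a
      rw [hFof, hGφ]
    · show G₀ (Fh (AdjoinRoot.root (Phi p g w))) = AdjoinRoot.root (Phi p g w)
      rw [hFroot, hG₀, hh, map_X]
      rfl
  exact ffe_of_equiv (Phi p g w) hm (Phi_deriv g w) φ (RingEquiv.ofRingHom Fh G₀ e1 e2) hFof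

end Pool.Agent.P8H40.FR
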